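import Pool.Agent.Lib.MP_28303a_al.HIG.Iface
import Pool.Agent.Lib.MP_d61eec_lc.TM

/-! # Module MACH: every recursively enumerable set of words is accepted by a machine -/

set_option autoImplicit false

namespace Pool.Agent.NegK.Hig.H15

open Turing PartrecToTM2 StateTransition Relation
open Pool.Agent.Lib.MP_d61eec_lc (Stk SS CC QS nxtS opS applyOp ustep supp supp_finite nxtS_mem
  dig dec dec_dig dec_enc dig_lt enc_tail halts_iff fintypeK')

/-- The code of a stack. -/
abbrev encS : List Γ' → ℕ := Pool.Agent.Lib.MP_d61eec_lc.enc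

/-! ### Words as numbers -/

/-- The digit of a letter. -/
def dg (a : Sg) : ℕ := a.1.val + 2 * a.2.toNat

/-- The number of a word. -/
def vv (w : List Sg) : ℕ := w.foldl (fun s a => 4 * s + dg a) 1

theorem vv_append (w : List Sg) (a : Sg) : vv (w ++ [a]) = 4 * vv w + dg a := by
  simp [vv, List.foldl_append]

theorem vv_pos (w : List Sg) : 0 < vv w := by
  induction w using List.reverseRecOn with
  | nil => simp [vv]
  | append_singleton w a ih => rw [vv_append]; omega

theorem dg_lt (a : Sg) : dg a < 4 := by
  obtain ⟨i, b⟩ := a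
  have := i.2
  cases b <;> simp [dg] <;> omega

theorem dg_inj {a b : Sg} (h : dg a = dg b) : a = b := by
  revert h
  revert a b
  decide

theorem vv_inj {w w' : List Sg} (h : vv w = vv w') : w = w' := by
  induction w using List.reverseRecOn generalizing w' with
  | nil =>
    rcases List.eq_nil_or_concat w' with rfl | ⟨l, a, rfl⟩
    · rfl
    · rw [List.concat_eq_append, vv_append] at h
      have := vv_pos l
      simp [vv] at h
      simp [vv] at this
      omega
  | append_singleton w a ih =>
    rcases List.eq_nil_or_concat w' with rfl | ⟨l, b, rfl⟩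
    · rw [vv_append] at h
      have := vv_pos w
      have h1 : vv [] = 1 := rfl
      omega
    · rw [List.concat_eq_append, vv_append, vv_append] at h
      have h1 := dg_lt a
      have h2 := dg_lt b
      have h3 : vv w = vv l := by omega
      have h4 : dg a = dg b := by omega
      rw [List.concat_eq_append, ih h3, dg_inj h4]

theorem trNat_two_mul (n : ℕ) (hn : 0 < n) : trNat (2 * n) = Γ'.bit0 :: trNat n := by
  unfold trNat
  have h : ((2 * n : ℕ) : Num) = (n : Num).bit0 := by
    rw [← Num.bit0_of_bit0, two_mul, Nat.cast_add]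
  rw [h]
  rcases hm : (n : Num) with _ | p
  · exfalso
    have h1 : ((n : Num) : ℕ) = n := Num.to_of_nat n
    rw [hm] at h1
    have h2 : ((Num.zero : Num) : ℕ) = 0 := rfl
    omega
  · rfl

theorem trNat_two_mul_add_one (n : ℕ) : trNat (2 * n + 1) = Γ'.bit1 :: trNat n := by
  unfold trNat
  have h : ((2 * n + 1 : ℕ) : Num) = (n : Num).bit1 := by
    rw [← Num.bit1_of_bit1, two_mul, Nat.cast_add, Nat.cast_add, Nat.cast_one]
  rw [h]
  rcases (n : Num) with _ | p
  · rfl
  · rfl

/-- The bit for a truth value. -/
def bt (b : Bool) : Γ' := cond b Γ'.bit1 Γ'.bit0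

theorem trNat_step (n : ℕ) (hn : 0 < n) (a : Sg) :
    trNat (4 * n + dg a) = bt (decide (a.1 = 1)) :: bt a.2 :: trNat n := by
  obtain ⟨i, b⟩ := a
  have h0 : 4 * n = 2 * (2 * n) := by ring
  fin_cases i <;> cases b
  · show trNat (4 * n + 0) = Γ'.bit0 :: Γ'.bit0 :: trNat n
    rw [add_zero, h0, trNat_two_mul _ (by omega), trNat_two_mul _ hn]
  · show trNat (4 * n + 2) = Γ'.bit0 :: Γ'.bit1 :: trNat n
    rw [show 4 * n + 2 = 2 * (2 * n + 1) by ring, trNat_two_mul _ (by omega),
      trNat_two_mul_add_one]
  · show trNat (4 * n + 1) = Γ'.bit1 :: Γ'.bit0 :: trNat n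
    rw [h0, trNat_two_mul_add_one, trNat_two_mul _ hn]
  · show trNat (4 * n + 3) = Γ'.bit1 :: Γ'.bit1 :: trNat n
    rw [show 4 * n + 3 = 2 * (2 * n + 1) + 1 by ring, trNat_two_mul_add_one,
      trNat_two_mul_add_one]

/-- The code of a word. -/
def ew (w : List Sg) : ℕ := encS (trList [vv w])

/-- The last two digits. -/
def kp (a : Sg) : ℕ := 5 * dig (bt a.2) + dig (bt (decide (a.1 = 1)))

theorem ew_append (w : List Sg) (a : Sg) : ew (w ++ [a]) = 25 * ew w + kp a := by
  unfold ew kp
  rw [vv_append]
  simp only [trList]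
  rw [trNat_step _ (vv_pos w)]
  simp only [List.cons_append, encS, Pool.Agent.Lib.MP_d61eec_lc.enc]
  ring

theorem ew_nil : ew [] = 14 := by
  have h : trNat 1 = [Γ'.bit1] := by
    have := trNat_two_mul_add_one 0
    simpa using this
  unfold ew
  show encS (trList [1]) = 14
  simp only [trList]
  rw [h]
  rfl

theorem kp_lt (a : Sg) : kp a < 25 := by
  revert a
  decide

theorem kp_inj {a b : Sg} (h : kp a = kp b) : a = b := by
  revert h
  revert a b
  decide

theorem kp_ne (a : Sg) : kp a ≠ 14 := by
  revert a
  decide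

/-! ### The machine which empties its stacks -/

/-- Operations: in the halting state all stacks are popped. -/
def opV : QS → K' → Option (Option Γ')
  | none, _ => some none
  | some s, k => opS (some s) k

/-- One step. -/
def vstep (x : QS × Stk) : QS × Stk :=
  (nxtS x.1 fun k => (x.2 k).head?, fun k => applyOp (opV x.1 k) (x.2 k))

theorem vstep_some (s : SS × Option Γ') (T : Stk) : vstep (some s, T) = ustep (some s, T) := rfl

theorem vstep_none (T : Stk) : vstep (none, T) = (none, fun k => (T k).tail) := rfl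

theorem vstep_none_iterate (m : ℕ) (T : Stk) :
    vstep^[m] (none, T) = (none, fun k => (T k).drop m) := by
  induction m generalizing T with
  | zero => simp
  | succ m ih =>
    rw [Function.iterate_succ_apply, vstep_none, ih]
    refine Prod.ext rfl ?_
    funext k
    show ((T k).tail).drop m = (T k).drop (m + 1)
    rw [List.drop_tail]

theorem ustep_none_iterate (m : ℕ) (T : Stk) : ustep^[m] (none, T) = (none, T) := by
  induction m with
  | zero => rfl
  | succ m ih => rw [Function.iterate_succ_apply, Pool.Agent.Lib.MP_d61eec_lc.ustep_none, ih]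

theorem vstep_fst (m : ℕ) (x : QS × Stk) : (vstep^[m] x).1 = (ustep^[m] x).1 := by
  induction m generalizing x with
  | zero => rfl
  | succ m ih =>
    obtain ⟨q, T⟩ := x
    rcases q with _ | s
    · rw [vstep_none_iterate, ustep_none_iterate]
    · rw [Function.iterate_succ_apply, Function.iterate_succ_apply, vstep_some, ih]

theorem vstep_iff (x : QS × Stk) :
    (∃ m, vstep^[m] x = (none, fun _ => [])) ↔ ∃ m, (ustep^[m] x).1 = none := by
  constructor
  · rintro ⟨m, hm⟩
    exact ⟨m, by rw [← vstep_fst, hm]⟩
  · rintro ⟨m, hm⟩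
    rw [← vstep_fst] at hm
    rcases hx : vstep^[m] x with ⟨q, T⟩
    rw [hx] at hm
    simp only at hm
    subst hm
    let N : ℕ := ∑ k : K', (T k).length
    refine ⟨N + m, ?_⟩
    rw [Function.iterate_add_apply, hx, vstep_none_iterate]
    refine Prod.ext rfl ?_
    funext k
    refine List.drop_eq_nil_of_le ?_
    exact Finset.single_le_sum (f := fun k : K' => (T k).length) (fun _ _ => Nat.zero_le _)
      (Finset.mem_univ k)

/-- The counters of the stacks. -/
def ct (T : Stk) : K' → ℤ := fun k => (encS (T k) : ℤ)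

/-- The vector of multiplication by `25`. -/
def m25 : (K' → ℤ) →+ (K' → ℤ) where
  toFun n j := 25 * n j
  map_zero' := by ext j; simp
  map_add' a b := by ext j; simp [mul_add]

/-- Counters which vanish outside the main stack. -/
def mn (n : ℤ) : K' → ℤ
  | K'.main => n
  | K'.rev => 0
  | K'.aux => 0
  | K'.stack => 0

theorem encS_eq_zero {l : List Γ'} (h : encS l = 0) : l = [] := by
  cases l with
  | nil => rfl
  | cons a l =>
    exfalso
    have h1 : 0 < dig a := by cases a <;> simp [dig]
    simp only [encS, Pool.Agent.Lib.MP_d61eec_lc.enc] at h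
    omega

instance finSupp (F : Finset Λ') : Finite (supp F) := supp_finite F

/-- The machine. -/
def mch (F : Finset Λ') (hF : ∀ l ∈ F, TM2.SupportsStmt F (tr l)) (q₀ : supp F) : Mach where
  Q := supp F
  J := K'
  nxt q r := ⟨nxtS q.1 fun k => dec (r k), nxtS_mem hF q.2 _⟩
  al q _ k := match opV q.1 k with
    | none => 5
    | some none => 1
    | some (some _) => 25
  be q r k := match opV q.1 k with
    | none => (r k).val
    | some none => 0
    | some (some a) => 5 * (r k).val + dig a
  al_pos q r k := by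
    rcases opV q.1 k with _ | _ | a <;> simp
  qin := q₀
  enc w := mn (ew w)
  mul := m25
  mul_inj := by
    intro a b h
    funext j
    have h1 := congrFun h j
    have h2 : 25 * a j = 25 * b j := h1
    omega
  kap a := mn (kp a)
  enc_append w a := by
    funext j
    cases j
    · show ((ew (w ++ [a]) : ℕ) : ℤ) = 25 * (ew w : ℤ) + (kp a : ℤ)
      rw [ew_append]
      push_cast
      ring
    · rfl
    · rfl
    · rfl
  enc_sep w u a h := by
    have h0 : (ew w : ℤ) = 25 * u K'.main + kp a := congrFun h K'.main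
    have h1 : (0 : ℤ) = 25 * u K'.rev + 0 := congrFun h K'.rev
    have h2 : (0 : ℤ) = 25 * u K'.aux + 0 := congrFun h K'.aux
    have h3 : (0 : ℤ) = 25 * u K'.stack + 0 := congrFun h K'.stack
    have hka := kp_lt a
    rcases List.eq_nil_or_concat w with rfl | ⟨l, b, rfl⟩
    · exfalso
      rw [ew_nil] at h0
      have := kp_ne a
      omega
    · rw [List.concat_eq_append, ew_append] at h0
      have hkb := kp_lt b
      push_cast at h0
      have h4 : kp b = kp a := by omega
      have h5 : u K'.main = ew l := by omega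
      refine ⟨l, ?_, ?_⟩
      · rw [List.concat_eq_append, kp_inj h4]
      · funext j
        cases j
        · exact h5
        · show u K'.rev = 0
          omega
        · show u K'.aux = 0
          omega
        · show u K'.stack = 0
          omega
  qh := ⟨none, fun q v h => by simp at h⟩
  nh := 0
  fix_q := rfl
  fix_n j := by
    show ((1 : ℕ) : ℤ) * ((0 : ℤ) / 5) + ((0 : ℕ) : ℤ) = 0
    simp

theorem mch_res {F : Finset Λ'} (hF : ∀ l ∈ F, TM2.SupportsStmt F (tr l)) (q₀ : supp F)
    (T : Stk) (k : K') : (mch F hF q₀).res (ct T) k = ((encS (T k) : ℕ) : ZMod 5) :=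
  Int.cast_natCast _

theorem mch_step {F : Finset Λ'} (hF : ∀ l ∈ F, TM2.SupportsStmt F (tr l)) (q₀ q : supp F)
    (T : Stk) : ((mch F hF q₀).step (q, ct T)).1.1 = (vstep (q.1, T)).1 ∧
      ((mch F hF q₀).step (q, ct T)).2 = ct (vstep (q.1, T)).2 := by
  constructor
  · show nxtS q.1 (fun k => dec ((mch F hF q₀).res (ct T) k)) = _
    simp only [vstep]
    congr 1
    funext k
    rw [mch_res]
    exact dec_enc _
  · funext k
    have h1 : ((mch F hF q₀).step (q, ct T)).2 k =
        (((mch F hF q₀).al q ((mch F hF q₀).res (ct T)) k : ℕ) : ℤ) * (ct T k / 5) +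
      (((mch F hF q₀).be q ((mch F hF q₀).res (ct T)) k : ℕ) : ℤ) := rfl
    have h2 : (mch F hF q₀).al q ((mch F hF q₀).res (ct T)) k =
      (match opV q.1 k with
        | none => 5
        | some none => 1
        | some (some _) => 25) := rfl
    have h3 : (mch F hF q₀).be q ((mch F hF q₀).res (ct T)) k =
      (match opV q.1 k with
        | none => ((mch F hF q₀).res (ct T) k).val
        | some none => 0
        | some (some a) => 5 * ((mch F hF q₀).res (ct T) k).val + dig a) := rfl
    have h4 : (ct T k / 5) = ((encS (T k) / 5 : ℕ) : ℤ) := by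
      simp only [ct]
      push_cast
      rfl
    have h5 : ((mch F hF q₀).res (ct T) k).val = encS (T k) % 5 := by
      rw [mch_res, ZMod.val_natCast]
    rw [h1, h2, h3, h4, h5]
    show _ = ((encS (applyOp (opV q.1 k) (T k)) : ℕ) : ℤ)
    rcases h : opV q.1 k with _ | _ | a
    · simp only [applyOp]
      omega
    · simp only [applyOp, encS, enc_tail]
      push_cast
      ring
    · simp only [applyOp, encS, Pool.Agent.Lib.MP_d61eec_lc.enc]
      omega

theorem mch_iterate {F : Finset Λ'} (hF : ∀ l ∈ F, TM2.SupportsStmt F (tr l)) (q₀ q : supp F)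
    (T : Stk) (i : ℕ) : ((mch F hF q₀).step^[i] (q, ct T)).1.1 = (vstep^[i] (q.1, T)).1 ∧
      ((mch F hF q₀).step^[i] (q, ct T)).2 = ct (vstep^[i] (q.1, T)).2 := by
  induction i with
  | zero => exact ⟨rfl, rfl⟩
  | succ i ih =>
    obtain ⟨h1, h2⟩ := ih
    rw [Function.iterate_succ_apply', Function.iterate_succ_apply']
    have h3 := mch_step hF q₀ ((mch F hF q₀).step^[i] (q, ct T)).1 (vstep^[i] (q.1, T)).2
    have h4 : ((mch F hF q₀).step^[i] (q, ct T)) = (((mch F hF q₀).step^[i] (q, ct T)).1,
      ct (vstep^[i] (q.1, T)).2) := Prod.ext rfl h2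
    have h5 : (vstep^[i] (q.1, T)) = ((((mch F hF q₀).step^[i] (q, ct T)).1.1 : QS),
      (vstep^[i] (q.1, T)).2) := Prod.ext h1.symm rfl
    have e1 : (mch F hF q₀).step ((mch F hF q₀).step^[i] (q, ct T)) =
        (mch F hF q₀).step (((mch F hF q₀).step^[i] (q, ct T)).1, ct (vstep^[i] (q.1, T)).2) :=
      congrArg (mch F hF q₀).step h4
    have e2 : vstep (vstep^[i] (q.1, T)) = vstep ((((mch F hF q₀).step^[i] (q, ct T)).1.1 : QS),
        (vstep^[i] (q.1, T)).2) := congrArg vstep h5
    rw [e2]
    exact ⟨(congrArg (fun z : supp F × (K' → ℤ) => z.1.1) e1).trans h3.1,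
      (congrArg (fun z : supp F × (K' → ℤ) => z.2) e1).trans h3.2⟩

theorem mch_acc {F : Finset Λ'} (hF : ∀ l ∈ F, TM2.SupportsStmt F (tr l)) (q₀ : supp F)
    (w : List Sg) : (mch F hF q₀).Acc w ↔
      ∃ m, (ustep^[m] (q₀.1, K'.elim (trList [vv w]) [] [] [])).1 = none := by
  rw [← vstep_iff]
  have he : (mch F hF q₀).enc w = ct (K'.elim (trList [vv w]) [] [] []) := by
    funext j
    cases j <;> rfl
  refine exists_congr fun k => ?_
  obtain ⟨h2, h3⟩ := mch_iterate hF q₀ q₀ (K'.elim (trList [vv w]) [] [] []) k
  rw [← he] at h2 h3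
  constructor
  · intro h
    have h4 : (((mch F hF q₀).step^[k] (q₀, (mch F hF q₀).enc w)).1 : supp F).1 = none := by
      have := congrArg Prod.fst h
      have h5 := congrArg (fun x : supp F => x.1) this
      exact h5
    have h5 : ((mch F hF q₀).step^[k] (q₀, (mch F hF q₀).enc w)).2 = (0 : K' → ℤ) :=
      congrArg Prod.snd h
    refine Prod.ext ?_ ?_
    · rw [← h2]
      exact h4
    · funext j
      have h6 := congrFun (h3.symm.trans h5) j
      have h7 : ((encS ((vstep^[k] (q₀.1, K'.elim (trList [vv w]) [] [] [])).2 j) : ℕ) : ℤ) = 0 :=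
        h6
      exact encS_eq_zero (by exact_mod_cast h7)
  · intro h
    have h4 := congrArg Prod.fst h
    have h5 := congrArg Prod.snd h
    refine Prod.ext (Subtype.ext ?_) ?_
    · exact h2.trans h4
    · exact h3.trans (by rw [h5]; rfl)

/-! ### Computability -/

theorem vv_computable : Computable vv := by
  have h : Primrec vv := by
    unfold vv
    have hd : Primrec dg := Primrec.dom_finite _
    have h2 : Primrec fun p : List Sg × (ℕ × Sg) => 4 * p.2.1 + dg p.2.2 :=
      Primrec.nat_add.comp (Primrec.nat_mul.comp (Primrec.const 4)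
        (Primrec.fst.comp Primrec.snd)) (hd.comp (Primrec.snd.comp Primrec.snd))
    exact Primrec.list_foldl (f := fun w : List Sg => w) (g := fun _ => 1)
      (h := fun _ p => 4 * p.1 + dg p.2) Primrec.id (Primrec.const 1) h2.to₂
  exact h.to_comp

theorem exists_partrec (E : List Sg → Prop) (hE : REPred E) :
    ∃ f : ℕ →. ℕ, Partrec f ∧ ∀ w, (f (vv w)).Dom ↔ E w := by
  let g : ℕ → ℕ → Bool := fun n k =>
    decide (((Encodable.decode k : Option (List Sg)).map vv) = some n)
  have hg : Computable₂ g := by
    have h1 : Computable fun p : ℕ × ℕ => ((Encodable.decode p.2 : Option (List Sg)).map vv) :=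
      (Computable.decode.comp Computable.snd).option_map (vv_computable.comp Computable.snd).to₂
    have h2 : Computable fun p : ℕ × ℕ => (some p.1 : Option ℕ) :=
      Computable.option_some.comp Computable.fst
    have h3 : Computable₂ fun a b : Option ℕ => decide (a = b) := (Primrec.eq (α := Option ℕ)).decide.to_comp
    exact (h3.comp h1 h2).to₂
  have hk : Partrec fun n => Nat.rfind fun k => (Part.some (g n k) : Part Bool) :=
    Partrec.rfind hg.partrec₂
  have hE' : Partrec fun w : List Sg => (Part.assert (E w) fun _ => Part.some ()) := hE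
  have h4 : Partrec fun k : ℕ =>
      (Part.assert (E ((Encodable.decode k : Option (List Sg)).getD [])) fun _ => Part.some ()) :=
    hE'.comp (Computable.option_getD Computable.decode (Computable.const []))
  let f : ℕ →. ℕ := fun n => (Nat.rfind fun k => (Part.some (g n k) : Part Bool)).bind fun k =>
    (Part.assert (E ((Encodable.decode k : Option (List Sg)).getD [])) fun _ => Part.some ()).map
      fun _ => 0
  have hf : Partrec f := by
    refine hk.bind ?_
    refine Partrec.map (h4.comp Computable.snd) ?_
    exact (Computable.const 0).to₂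
  refine ⟨f, hf, fun w => ?_⟩
  have hdom : (Nat.rfind fun k => (Part.some (g (vv w) k) : Part Bool)).Dom := by
    rw [Nat.rfind_dom]
    refine ⟨Encodable.encode w, ?_, fun _ => trivial⟩
    rw [Part.mem_some_iff]
    simp [g, Encodable.encodek]
  obtain ⟨k, hk1⟩ := Part.dom_iff_mem.1 hdom
  have hk2 := (Nat.mem_rfind.1 hk1).1
  rw [Part.mem_some_iff] at hk2
  have hk3 : ((Encodable.decode k : Option (List Sg)).map vv) = some (vv w) := by
    have := hk2.symm
    simpa [g] using this
  obtain ⟨w', hw1, hw2⟩ := Option.map_eq_some_iff.1 hk3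
  have hw : w' = w := vv_inj hw2
  subst hw
  have h5 : (Nat.rfind fun k => (Part.some (g (vv w') k) : Part Bool)) = Part.some k :=
    Part.eq_some_iff.2 hk1
  show (((Nat.rfind fun k => (Part.some (g (vv w') k) : Part Bool)).bind fun k =>
    (Part.assert (E ((Encodable.decode k : Option (List Sg)).getD [])) fun _ => Part.some ()).map
      fun _ => 0).Dom) ↔ E w'
  rw [h5, Part.bind_some, hw1]
  constructor
  · rintro ⟨h, _⟩
    exact h
  · intro h
    exact ⟨h, trivial⟩

theorem mach : MachStatement := by
  intro E hE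
  obtain ⟨f, hf, hfE⟩ := exists_partrec E hE
  have h1 : Nat.Partrec' (fun v : List.Vector ℕ 1 => f v.head) :=
    Nat.Partrec'.part_iff₁.2 hf
  obtain ⟨c, hc⟩ := ToPartrec.Code.exists_code h1
  have hsup := tr_supports c Cont'.halt
  have hmem : trNormal c Cont'.halt ∈ codeSupp c Cont'.halt := hsup.1
  refine ⟨mch (codeSupp c Cont'.halt) hsup.2 ⟨some (tr (trNormal c Cont'.halt), none), ?_⟩,
    fun w => ?_⟩
  · intro q v h
    simp only [Option.some.injEq, Prod.mk.injEq] at h
    obtain ⟨rfl, rfl⟩ := h
    exact ⟨_, hmem, TM2.stmts₁_self⟩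
  · rw [mch_acc, halts_iff, ← hfE]
    have heval : StateTransition.eval (TM2.step tr) (init c [vv w]) = halt <$> c.eval [vv w] :=
      tr_eval c [vv w]
    have hcn : c.eval [vv w] = (pure <$> f (vv w) : Part (List ℕ)) := hc ⟨[vv w], rfl⟩
    have : (⟨some (trNormal c Cont'.halt), none, K'.elim (trList [vv w]) [] [] []⟩ : CC) =
      init c [vv w] := rfl
    rw [this, heval, hcn]
    rfl

end Pool.Agent.NegK.Hig.H15
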